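import Pool.Agent.N355.FP.Gap

/-!
# The product of the filling exponents of a non-abelian nilpotent group

Let `G` be a non-abelian connected, simply connected nilpotent Lie group of dimension `n` (given,
as in `Pool.Agent.TH630.NilLaw`, in triangular polynomial coordinates; the stratified groups are
among them) with the left-invariant Riemannian metric given by `B`.  If
`FV^(k+1)(ℓ) ≼ ℓ ^ (α k)` with exponents `α k ≥ 1` for `k = 1, …, n - 1`, then
`α 1 * ⋯ * α (n-1) ≥ n + 1`, while the product of the Euclidean exponents `(k+1)/k` is `n`.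
Hence some filling function is super-Euclidean by a power: for some `k` it is not
`≼ ℓ ^ (β (k+1)/k)`, for all `β ≥ 1` with `β ^ (n-1) < (n+1)/n`.
-/

set_option autoImplicit false

namespace Pool.Agent.Results.MP_b8ac35_gt.FillingExponents

open Pool.Agent.TH630 Pool.Agent.N355.FP

/-- `f ≼ ℓ ^ α` for the filling volume function `f` in dimension `k`:
`f(ℓ) ≤ C (C ℓ + C) ^ α + C ℓ + C` for some `C > 0` and all `ℓ ≥ 0`. -/
def AtMost {n : ℕ} (G : NilLaw n) (B : Matrix (Fin n) (Fin n) ℝ) (k : ℕ) (α : ℝ) : Prop :=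
  ∃ C : ℝ, 0 < C ∧ ∀ ℓ : ℝ, 0 ≤ ℓ →
    G.FV B k ℓ ≤ ENNReal.ofReal (C * (C * ℓ + C) ^ α + C * ℓ + C)

theorem result {n : ℕ} (G : NilLaw n) (hG : ∃ x y, G.mul x y ≠ G.mul y x)
    (B : Matrix (Fin n) (Fin n) ℝ) (hB : B.PosDef) :
    (∀ α : ℕ → ℝ, (∀ k, 1 ≤ k → k + 1 ≤ n → 1 ≤ α k ∧ AtMost G B k (α k)) →
      (n : ℝ) + 1 ≤ ∏ k ∈ Finset.Ico 1 n, α k) ∧
    ∃ k, 1 ≤ k ∧ k + 1 ≤ n ∧ ∀ β : ℝ, 1 ≤ β → β ^ (n - 1) < ((n : ℝ) + 1) / n →
      ¬ AtMost G B k (β * (((k : ℝ) + 1) / k)) := by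
  have hn : 1 ≤ n := by
    rcases n with _ | m
    · obtain ⟨x, y, hxy⟩ := hG
      exact absurd (Subsingleton.elim _ _) hxy
    · omega
  exact ⟨fun α h => prod_ge G hG B hB α (fun k a b => (h k a b).1) (fun k a b => (h k a b).2),
    gap_of_prod hn (FVLe G B) ((n : ℝ) + 1) (by linarith) (fun α h1 h2 =>
      prod_ge G hG B hB α h1 h2)⟩

end Pool.Agent.Results.MP_b8ac35_gt.FillingExponents
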